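import Pool.Agent.Q141.CP.Stm

/-!
# Charged polymers: bounds for `G d = log (d!) / d`
-/

set_option autoImplicit false

namespace Pool.Agent.Q141.CP

open Finset MeasureTheory Filter Topology
open Pool.Agent.Q285.LogFact (G sl sl_succ sl_one sl_zero mul_G U U_le V)

theorem an3_sl_le (a : ℕ) : sl a ≤ a * Real.log a := by
  induction a with
  | zero => simp [sl_zero]
  | succ a ih =>
    rw [sl_succ]
    have h1 : Real.log (a : ℝ) ≤ Real.log ((a : ℝ) + 1) := by
      rcases Nat.eq_zero_or_pos a with h | h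
      · subst h
        simp
      · exact Real.log_le_log (by exact_mod_cast h) (by linarith)
    have h2 : (a : ℝ) * Real.log a ≤ a * Real.log ((a : ℝ) + 1) :=
      mul_le_mul_of_nonneg_left h1 (Nat.cast_nonneg a)
    push_cast
    linarith

theorem an3_sl_ge (a : ℕ) : (a : ℝ) * (Real.log ((a : ℝ) + 1) - 1) ≤ sl a := by
  have h1 := U_le a
  unfold U V at h1
  have h2 : Real.log ((a : ℝ) + 2) - Real.log ((a : ℝ) + 1) ≤ 1 / ((a : ℝ) + 1) := by
    rw [← Real.log_div (by positivity) (by positivity)]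
    have h3 := Real.log_le_sub_one_of_pos (x := ((a : ℝ) + 2) / ((a : ℝ) + 1)) (by positivity)
    have h4 : ((a : ℝ) + 2) / ((a : ℝ) + 1) - 1 = 1 / ((a : ℝ) + 1) := by
      field_simp
      ring
    linarith
  have h3 : ((a : ℝ) + 1) * (Real.log ((a : ℝ) + 2) - Real.log ((a : ℝ) + 1)) ≤ 1 := by
    have h4 := mul_le_mul_of_nonneg_left h2 (by positivity : (0 : ℝ) ≤ (a : ℝ) + 1)
    have h5 : ((a : ℝ) + 1) * (1 / ((a : ℝ) + 1)) = 1 := by
      field_simp
    linarith
  have h4 := mul_le_mul_of_nonneg_left h3 (Nat.cast_nonneg a : (0 : ℝ) ≤ (a : ℝ))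
  nlinarith

theorem an3_stirling (d : ℕ) (hd : 1 ≤ d) :
    sl d ≤ d * Real.log d - d + (Real.log d / 2 + 1) := by
  induction d, hd using Nat.le_induction with
  | base => simp [sl_one]
  | succ d hd ih =>
    have hd0 : (0 : ℝ) < d := by exact_mod_cast hd
    rw [sl_succ]
    have h1 := Real.le_log_one_add_of_nonneg (x := 1 / (d : ℝ)) (by positivity)
    have h2 : 2 * (1 / (d : ℝ)) / (1 / (d : ℝ) + 2) = 1 / ((d : ℝ) + 1 / 2) := by
      field_simp
      ring
    have h3 : Real.log (1 + 1 / (d : ℝ)) = Real.log ((d : ℝ) + 1) - Real.log d := by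
      rw [← Real.log_div (by positivity) (by positivity)]
      congr 1
      field_simp
    rw [h2, h3] at h1
    have h4 : 1 ≤ ((d : ℝ) + 1 / 2) * (Real.log ((d : ℝ) + 1) - Real.log d) := by
      have h5 := mul_le_mul_of_nonneg_left h1 (by positivity : (0 : ℝ) ≤ (d : ℝ) + 1 / 2)
      have h6 : ((d : ℝ) + 1 / 2) * (1 / ((d : ℝ) + 1 / 2)) = 1 := by
        field_simp
      linarith
    push_cast
    nlinarith

theorem an3_G_le (d : ℕ) (hd : 1 ≤ d) : G d ≤ Real.log d := by
  have hd0 : (0 : ℝ) < d := by exact_mod_cast hd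
  have h1 := an3_sl_le d
  unfold G
  rw [div_le_iff₀ hd0]
  linarith

theorem an3_G_step (b : ℕ) (hb : 1 ≤ b) : G (b + 1) ≤ G b + 1 / ((b : ℝ) + 1) := by
  have hb0 : (0 : ℝ) < b := by exact_mod_cast hb
  have h1 := an3_sl_ge b
  have h2 : G (b + 1) = (sl b + Real.log ((b : ℝ) + 1)) / ((b : ℝ) + 1) := by
    unfold G
    rw [sl_succ]
    push_cast
    rfl
  have h3 := mul_G b
  rw [h2, div_le_iff₀ (by positivity), add_mul, one_div_mul_cancel (by positivity)]
  have h4 : Real.log ((b : ℝ) + 1) - 1 ≤ G b := by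
    unfold G
    rw [le_div_iff₀ hb0]
    linarith
  nlinarith

theorem an3_G_mono : Monotone G := by
  refine monotone_nat_of_le_succ fun a => ?_
  rcases Nat.eq_zero_or_pos a with h | h
  · subst h
    simp [G, sl_zero, sl_one]
  · have ha0 : (0 : ℝ) < a := by exact_mod_cast h
    have h1 := an3_sl_le a
    have h2 : G (a + 1) = (sl a + Real.log ((a : ℝ) + 1)) / ((a : ℝ) + 1) := by
      unfold G
      rw [sl_succ]
      push_cast
      rfl
    have h3 := mul_G a
    have h4 := an3_G_le a h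
    have h5 : Real.log (a : ℝ) ≤ Real.log ((a : ℝ) + 1) := Real.log_le_log ha0 (by linarith)
    rw [h2, le_div_iff₀ (by positivity)]
    nlinarith

theorem an3_pow (l d : ℕ) (hd : 1 ≤ d) : Real.exp (l * G d) ≤ (d : ℝ) ^ l := by
  have hd0 : (0 : ℝ) < d := by exact_mod_cast hd
  have h1 : (l : ℝ) * G d ≤ l * Real.log d :=
    mul_le_mul_of_nonneg_left (an3_G_le d hd) (Nat.cast_nonneg l)
  refine (Real.exp_le_exp.2 h1).trans (le_of_eq ?_)
  rw [Real.exp_nat_mul, Real.exp_log hd0]

theorem t_AN3 : S_AN3 := by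
  refine ⟨fun d hd => ?_, fun d => ?_, an3_G_mono, fun a E ha => ?_, fun l d => ?_, an3_pow⟩
  · have hd0 : (0 : ℝ) < d := by exact_mod_cast hd
    have h1 := an3_stirling d hd
    unfold G
    rw [div_le_iff₀ hd0, add_mul, div_mul_cancel₀ _ hd0.ne']
    linarith
  · unfold G
    refine div_nonneg ?_ (Nat.cast_nonneg d)
    unfold sl
    exact Real.log_nonneg (by exact_mod_cast Nat.factorial_pos d)
  · have ha0 : (0 : ℝ) < a := by exact_mod_cast ha
    induction E with
    | zero => simp
    | succ E ih =>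
      have h1 := an3_G_step (a + E) (by omega)
      have h2 : 1 / (((a + E : ℕ) : ℝ) + 1) ≤ 2 / a := by
        rw [div_le_div_iff₀ (by positivity) ha0]
        push_cast
        have : (0 : ℝ) ≤ E := Nat.cast_nonneg E
        linarith
      have h3 : (2 : ℝ) * ((E + 1 : ℕ) : ℝ) / a = 2 * E / a + 2 / a := by
        push_cast
        field_simp
      rw [← add_assoc, h3]
      linarith
  · rcases Nat.eq_zero_or_pos d with h | h
    · subst h
      have h1 : G 0 = 0 := by simp [G]
      rw [h1]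
      simp only [mul_zero, Real.exp_zero, Nat.cast_zero, mul_one]
      exact_mod_cast Nat.factorial_pos l
    · have h1 := an3_pow l d h
      have h2 := Real.pow_div_factorial_le_exp (d : ℝ) (Nat.cast_nonneg d) l
      have h3 : (0 : ℝ) < (l.factorial : ℝ) := by exact_mod_cast Nat.factorial_pos l
      rw [div_le_iff₀ h3] at h2
      linarith

end Pool.Agent.Q141.CP
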