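import Pool.Agent.Q141.CP.Stm

/-!
# Charged polymers: a suitable dimension exists
-/

set_option autoImplicit false

namespace Pool.Agent.Q141.CP

open Finset MeasureTheory Filter Topology

theorem dex_log10 : Real.log (10 : ℝ) ≤ 9 := by
  have h := Real.log_le_sub_one_of_pos (x := (10 : ℝ)) (by norm_num)
  linarith

theorem dex_exp {t : ℝ} (h1 : t ≤ 1 / 1000) : Real.exp t ≤ 1012 / 1005 := by
  have h2 := Real.add_one_le_exp (-t)
  have h3 : Real.exp (-t) * Real.exp t = 1 := by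
    rw [← Real.exp_add]
    simp
  have h4 : 0 < Real.exp t := Real.exp_pos t
  by_contra h
  push Not at h
  nlinarith

theorem dex_e : Real.exp 1 ≤ 3 := by
  have := Real.exp_one_lt_d9
  linarith

theorem t_DEX : S_DEX := by
  intro hAN2
  unfold S_AN2 at hAN2
  have hl10 := dex_log10
  have hl10' : 0 ≤ Real.log (10 : ℝ) := Real.log_nonneg (by norm_num)
  have e1 : Real.log (4 * ((1000 : ℕ) : ℝ) ^ 4) = Real.log 4 + 12 * Real.log 10 := by
    have : (4 : ℝ) * ((1000 : ℕ) : ℝ) ^ 4 = 4 * 10 ^ 12 := by norm_num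
    rw [this, Real.log_mul (by norm_num) (by norm_num), Real.log_pow]
    norm_num
  have e2 : Real.log (50 * ((1000 : ℕ) : ℝ) ^ 4) = Real.log 50 + 12 * Real.log 10 := by
    have : (50 : ℝ) * ((1000 : ℕ) : ℝ) ^ 4 = 50 * 10 ^ 12 := by norm_num
    rw [this, Real.log_mul (by norm_num) (by norm_num), Real.log_pow]
    norm_num
  have hl4 : Real.log (4 : ℝ) ≤ 3 := by
    have h := Real.log_le_sub_one_of_pos (x := (4 : ℝ)) (by norm_num)
    linarith
  have hl4' : 0 ≤ Real.log (4 : ℝ) := Real.log_nonneg (by norm_num)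
  have hl50 : Real.log (50 : ℝ) ≤ 49 := by
    have h := Real.log_le_sub_one_of_pos (x := (50 : ℝ)) (by norm_num)
    linarith
  have hl50' : 0 ≤ Real.log (50 : ℝ) := Real.log_nonneg (by norm_num)
  -- the two factors
  set t1 : ℝ := (Real.log (50 * ((1000 : ℕ) : ℝ) ^ 4) / 2 + 1) / (2 * ((1000 : ℕ) : ℝ) ^ 3) with ht1
  set t2 : ℝ := Real.log (4 * ((1000 : ℕ) : ℝ) ^ 4) / ((1000 : ℕ) : ℝ) ^ 2 with ht2
  have ht1a : t1 ≤ 1 / 2000 := by
    rw [ht1, e2, div_le_iff₀ (by norm_num)]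
    norm_num
    linarith
  have ht1b : 0 ≤ t1 := by
    rw [ht1, e2]
    positivity
  have ht2a : t2 ≤ 1 / 2000 := by
    rw [ht2, e1, div_le_iff₀ (by norm_num)]
    norm_num
    linarith
  have ht2b : 0 ≤ t2 := by
    rw [ht2, e1]
    positivity
  have hr : rho 1000 * Real.exp t2 ≤ 1012 / 1005 := by
    unfold rho
    rw [← ht1, ← Real.exp_add]
    exact dex_exp (by linarith)
  have hr1 : 1 ≤ rho 1000 * Real.exp t2 := by
    unfold rho
    rw [← ht1, ← Real.exp_add]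
    exact Real.one_le_exp (by linarith)
  have hκ : 0 < (25 : ℝ) ^ 25 * Real.exp (-25) / ((25).factorial : ℝ) := by positivity
  have hκ1 : (1 : ℝ) / 3 ^ 25 ≤ (25 : ℝ) ^ 25 * Real.exp (-25) / ((25).factorial : ℝ) := by
    have h1 : (1 : ℝ) / 3 ^ 25 ≤ Real.exp (-25) := by
      rw [Real.exp_neg, one_div]
      have h2 : Real.exp 25 = Real.exp 1 ^ 25 := by
        rw [← Real.exp_nat_mul]
        norm_num
      rw [h2]
      have h3 : Real.exp 1 ^ 25 ≤ (3 : ℝ) ^ 25 :=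
        pow_le_pow_left₀ (Real.exp_pos 1).le dex_e 25
      exact inv_anti₀ (pow_pos (Real.exp_pos 1) 25) h3
    have h2 : ((25).factorial : ℝ) ≤ (25 : ℝ) ^ 25 := by
      norm_num [Nat.factorial]
    have h3 : (0 : ℝ) < ((25).factorial : ℝ) := by positivity
    rw [le_div_iff₀ h3]
    have h4 := Real.exp_pos (-25)
    calc (1 : ℝ) / 3 ^ 25 * ((25).factorial : ℝ) ≤ Real.exp (-25) * (25 : ℝ) ^ 25 :=
          mul_le_mul h1 h2 h3.le h4.le
      _ = (25 : ℝ) ^ 25 * Real.exp (-25) := mul_comm _ _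
  have hP : (0 : ℝ) < (2 * ((1000 : ℕ) : ℝ) ^ 4) ^ 25 := by positivity
  have hLam : Lam 1000 = (25 : ℝ) ^ 25 * Real.exp (-25) / ((25).factorial : ℝ) *
      (2 * ((1000 : ℕ) : ℝ) ^ 4) ^ 25 * (1005 / 1000) * (rho 1000 * Real.exp t2) := by
    unfold Lam
    rw [← ht2]
    ring
  refine ⟨1000, by norm_num, ?_, ?_, ?_⟩
  · rw [hLam]
    have h1 : (1 : ℝ) ≤ 1 / 3 ^ 25 * (2 * ((1000 : ℕ) : ℝ) ^ 4) ^ 25 := by norm_num
    have h2 : 1 / 3 ^ 25 * (2 * ((1000 : ℕ) : ℝ) ^ 4) ^ 25 ≤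
        (25 : ℝ) ^ 25 * Real.exp (-25) / ((25).factorial : ℝ) * (2 * ((1000 : ℕ) : ℝ) ^ 4) ^ 25 :=
      mul_le_mul_of_nonneg_right hκ1 hP.le
    have h3 : (1 : ℝ) ≤ (1005 / 1000) * (rho 1000 * Real.exp t2) := by linarith
    have h4 := one_le_mul_of_one_le_of_one_le (h1.trans h2) h3
    calc (1 : ℝ) ≤ _ := h4
      _ = _ := by ring
  · rw [hLam]
    generalize (25 : ℝ) ^ 25 * Real.exp (-25) / ((25).factorial : ℝ) = κ at *
    generalize (2 * ((1000 : ℕ) : ℝ) ^ 4) ^ 25 = P at *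
    generalize (Nat.choose 24 12 : ℝ) / 2 ^ 25 = c at *
    generalize rho 1000 * Real.exp t2 = r at *
    have h1 : κ * P * (1005 / 1000) * r ≤ κ * P * (1005 / 1000) * (1012 / 1005) :=
      mul_le_mul_of_nonneg_left hr (by positivity)
    have h2 : κ * P * (1005 / 1000) * (1012 / 1005) = P * (κ * (1012 / 1000)) := by ring
    have h3 := mul_lt_mul_of_pos_left hAN2 hP
    linarith
  · have h1 : Real.exp (Real.log 25 / 2 + 1) ≤ 3 ^ 13 := by
      have h2 : Real.log (25 : ℝ) ≤ 24 := by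
        have h := Real.log_le_sub_one_of_pos (x := (25 : ℝ)) (by norm_num)
        linarith
      have h3 : Real.exp (Real.log 25 / 2 + 1) ≤ Real.exp 13 := Real.exp_le_exp.2 (by linarith)
      have h4 : Real.exp 13 = Real.exp 1 ^ 13 := by
        rw [← Real.exp_nat_mul]
        norm_num
      rw [h4] at h3
      exact h3.trans (pow_le_pow_left₀ (Real.exp_pos 1).le dex_e 13)
    have h2 : (Real.exp 1 / ((1000 : ℕ) : ℝ)) ^ 25 ≤ (3 / 1000) ^ 25 := by
      refine pow_le_pow_left₀ (by positivity) ?_ 25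
      have := dex_e
      norm_num
      linarith
    have h3 := mul_le_mul h2 h1 (Real.exp_pos _).le (by positivity)
    have h4 := mul_le_mul_of_nonneg_right h3 (by positivity : (0 : ℝ) ≤ 4 * ((1000 : ℕ) : ℝ) ^ 4)
    refine h4.trans ?_
    norm_num

end Pool.Agent.Q141.CP
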