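import Mathlib

/-!
# Charged polymers: definitions

Project CP (MP_de3d19_pr): the annealed excess free energy of the charged polymer is not monotone
in the dimension.
-/

set_option autoImplicit false

namespace Pool.Agent.Q141.CP

open Finset MeasureTheory Filter Topology

/-! ### Walks -/

/-- The vertices of `ℤ^D`. -/
abbrev Vtx (D : ℕ) := Fin D → ℤ

/-- The directions: a coordinate and a sign. -/
abbrev Dir (D : ℕ) := Fin D × Bool

/-- The unit vector `± e_i` of a direction. -/
def stepv {D : ℕ} (a : Dir D) : Vtx D := Pi.single a.1 (if a.2 then 1 else -1)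

/-- The position after `i` steps of the walk with the steps `s`, started at the origin. -/
def pos {D n : ℕ} (s : Fin n → Dir D) (i : ℕ) : Vtx D :=
  ∑ j : Fin n, if (j : ℕ) < i then stepv (s j) else 0

/-- The local time: the number of the times `1 ≤ i ≤ n` at which the walk is at `x`. -/
def loc {D n : ℕ} (s : Fin n → Dir D) (x : Vtx D) : ℕ :=
  ((Finset.Icc 1 n).filter fun i => pos s i = x).card

/-- The points visited at the times `1, ..., n`. -/
def vis {D n : ℕ} (s : Fin n → Dir D) : Finset (Vtx D) := (Finset.Icc 1 n).image (pos s)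

/-- `E[∏_x g(ℓ_n(x))]` for simple random walk on `ℤ^D` (where `g 0 = 1`): the mean value over the
`(2D)^n` sequences of `n` steps. -/
noncomputable def Z (D : ℕ) (g : ℕ → ℝ) (n : ℕ) : ℝ :=
  (∑ s : Fin n → Dir D, ∏ x ∈ vis s, g (loc s x)) / (2 * D : ℝ) ^ n

/-- The number of the exits of the walk from `x`. -/
def ext {D n : ℕ} (s : Fin n → Dir D) (x : Vtx D) : ℕ :=
  ((Finset.range n).filter fun i => pos s i = x).card

/-- All points visited, with the starting point. -/
def tr {D n : ℕ} (s : Fin n → Dir D) : Finset (Vtx D) := (Finset.range (n + 1)).image (pos s)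

/-- The number of neighbours of `x` in `V`. -/
def nb {D : ℕ} (V : Finset (Vtx D)) (x : Vtx D) : ℕ :=
  (Finset.univ.filter fun a : Dir D => x + stepv a ∈ V).card

/-! ### The free energy -/

/-- `g^*(ℓ) = E exp(δ Ω_ℓ - β Ω_ℓ²)`. -/
noncomputable def gs (μ : Measure ℝ) (δ β : ℝ) (l : ℕ) : ℝ :=
  ∫ w : Fin l → ℝ, Real.exp (δ * (∑ i, w i) - β * (∑ i, w i) ^ 2) ∂(Measure.pi fun _ => μ)

/-- The annealed excess free energy. -/
noncomputable def Fs (μ : Measure ℝ) (δ β : ℝ) (D : ℕ) : EReal :=
  limsup (fun n : ℕ => ((Real.log (Z D (gs μ δ β) n) / n : ℝ) : EReal)) atTop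

/-- Admissible charge laws. -/
structure Adm (μ : Measure ℝ) : Prop where
  prob : IsProbabilityMeasure μ
  mgf : ∀ t : ℝ, Integrable (fun x => Real.exp (t * x)) μ
  mean : ∫ x, x ∂μ = 0
  var : ∫ x, x ^ 2 ∂μ = 1

/-- The law of the counterexample: `-1/5` with probability `25/26`, `5` with probability `1/26`. -/
noncomputable def law : Measure ℝ :=
  ENNReal.ofReal (25 / 26) • Measure.dirac (-1 / 5) + ENNReal.ofReal (1 / 26) • Measure.dirac 5

/-! ### Finite graphs and percolation sums -/

section Graph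

variable {α ε : Type}

/-- `x` and `y` are the ends of an edge of `F`. -/
def Lk (en : ε → α × α) (F : Finset ε) (x y : α) : Prop := ∃ e ∈ F, en e = (x, y) ∨ en e = (y, x)

/-- `F` connects all points of `V`. -/
def Conn (en : ε → α × α) (V : Finset α) (F : Finset ε) : Prop :=
  ∀ x ∈ V, ∀ y ∈ V, Relation.ReflTransGen (Lk en F) x y

variable [DecidableEq α] [DecidableEq ε]

/-- The edges of `E` with both ends in `V`. -/
def inE (en : ε → α × α) (E : Finset ε) (V : Finset α) : Finset ε :=
  E.filter fun e => (en e).1 ∈ V ∧ (en e).2 ∈ V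

/-- The edges of `E` with exactly one end in `V`. -/
def bdE (en : ε → α × α) (E : Finset ε) (V : Finset α) : Finset ε :=
  E.filter fun e => ((en e).1 ∈ V ∧ (en e).2 ∉ V) ∨ ((en e).1 ∉ V ∧ (en e).2 ∈ V)

/-- The weight of the set `F ⊆ E` of open edges. -/
noncomputable def wt (p : ℝ) (E F : Finset ε) : ℝ := p ^ F.card * (1 - p) ^ (E \ F).card

open Classical in
/-- The probability that the union of two independent percolations connects `V`. -/
noncomputable def conn2 (en : ε → α × α) (E : Finset ε) (V : Finset α) (p q : ℝ) : ℝ :=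
  ∑ F ∈ (inE en E V).powerset, ∑ H ∈ (inE en E V).powerset,
    if Conn en V (F ∪ H) then wt p (inE en E V) F * wt q (inE en E V) H else 0

/-- The edges inside `V` from `x` to lower points, for the height `h`. -/
def lowE (en : ε → α × α) (E : Finset ε) (V : Finset α) (h : α → ℤ) (x : α) : Finset ε :=
  (inE en E V).filter fun e =>
    ((en e).1 = x ∧ h (en e).2 < h x) ∨ ((en e).2 = x ∧ h (en e).1 < h x)

end Graph

/-- The edges of `ℤ^D`: `(x, i)` joins `x` and `x + e_i`. -/
def enZ {D : ℕ} (e : Vtx D × Fin D) : Vtx D × Vtx D := (e.1, e.1 + Pi.single e.2 1)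

/-- The height for a choice of signs. -/
def ht {D : ℕ} (c : Fin D → Bool) (x : Vtx D) : ℤ := ∑ i, (if c i then x i else - x i)

/-- The number of the lower neighbours in `V`. -/
def rc {D : ℕ} (V : Finset (Vtx D)) (c : Fin D → Bool) (x : Vtx D) : ℕ :=
  (Finset.univ.filter fun i : Fin D => x + stepv (i, !(c i)) ∈ V).card

/-- `V` is connected in `ℤ^D`. -/
def ConnZ {D : ℕ} (V : Finset (Vtx D)) : Prop :=
  ∀ x ∈ V, ∀ y ∈ V, Relation.ReflTransGen (fun a b => a ∈ V ∧ b ∈ V ∧ ∃ d, b = a + stepv d) x y

end Pool.Agent.Q141.CP
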