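import Pool.Agent.Q141.CP.Stm

/-!
# Charged polymers: the final step
-/

set_option autoImplicit false

namespace Pool.Agent.Q141.CP

open Finset MeasureTheory Filter Topology

/-- The final step: all parts together. -/
theorem fin (hPERC : S_PERC) (hSPR : S_SPR) (hCHO : S_CHO) (hLNK : S_LNK) (hAN1 : S_AN1)
    (hAN2 : S_AN2) (hAN3 : S_AN3) (hDEX : S_DEX) (hKV : S_KV) (hKK : S_KK) (hINJ : S_INJ)
    (hPRF : S_PRF) (hSUM : S_SUM) (hLAW : S_LAW) (hWGT : S_WGT) (hUPG : S_UPG) (hD1 : S_D1)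
    (hLOW : S_LOW) :
    Adm law ∧ ∃ δ β : ℝ, 0 ≤ δ ∧ 0 < β ∧
      (∃ D : ℕ, 2 ≤ D ∧ Fs law δ β D < Fs law δ β 1) ∧
      ∃ d : ℕ, 1 ≤ d ∧ Fs law δ β (d + 1) < Fs law δ β d := by
  obtain ⟨D, Λ, hD, hΛ, hgap, hKB⟩ := hKK hPERC hKV hSPR hCHO hLNK hAN1 hAN2 hAN3 hDEX
  have hD0 : (0 : ℝ) < 2 * D := by positivity
  have hCp : (0 : ℝ) < (Nat.choose 24 12 : ℝ) := by
    exact_mod_cast Nat.choose_pos (by norm_num)
  have hΛ0 : (0 : ℝ) < Λ := by linarith
  have h1 : Real.log Λ < 25 * Real.log (2 * D) + (Real.log (Nat.choose 24 12) - 25 * Real.log 2) := by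
    have := Real.log_lt_log hΛ0 hgap
    rw [Real.log_mul (by positivity) (by positivity), Real.log_pow,
      Real.log_div (by positivity) (by positivity), Real.log_pow] at this
    exact_mod_cast this
  set gap : ℝ := (Real.log (Nat.choose 24 12) / 25 - Real.log 2) -
    (Real.log Λ / 25 - Real.log (2 * D)) with hg
  have hgap0 : 0 < gap := by
    rw [hg]; linarith
  obtain ⟨η, hη, hη1, hS⟩ := hSUM hPRF hINJ hAN3 D Λ (by omega) hΛ hKB (gap / 2) (by linarith)
  obtain ⟨q₀, hq₀, hW⟩ := hWGT η hη hη1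
  have hβ : 0 < 25 * Real.log q₀ := by
    have : 0 < Real.log q₀ := Real.log_pos (by linarith)
    linarith
  have hexp : Real.exp (25 * Real.log q₀ / 25) = q₀ := by
    rw [mul_div_cancel_left₀ _ (by norm_num : (25 : ℝ) ≠ 0), Real.exp_log (by linarith)]
  obtain ⟨hAdm, hlaw⟩ := hLAW
  obtain ⟨g0, gpos, g25, gle, gle1⟩ := hlaw _ hβ
  rw [hexp] at g25
  have hwok := hW q₀ le_rfl _ gpos g25 (fun l => by have := gle l; rwa [hexp] at this) gle1
  obtain ⟨C, hC, hsum⟩ := hS _ hwok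
  have hup := hUPG D _ Λ (gap / 2) C (by omega) gpos hΛ (by linarith) hC hsum
  have hlow := hLOW hD1 _ gpos
  refine ⟨hAdm, 2 * (25 * Real.log q₀) / 5, 25 * Real.log q₀, by positivity, hβ, ?_⟩
  have key : Fs law (2 * (25 * Real.log q₀) / 5) (25 * Real.log q₀) D <
      Fs law (2 * (25 * Real.log q₀) / 5) (25 * Real.log q₀) 1 := by
    refine lt_of_le_of_lt hup (lt_of_lt_of_le ?_ hlow)
    rw [EReal.coe_lt_coe_iff]
    have h2 : Real.log (1 + gap / 2) ≤ gap / 2 := by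
      have := Real.log_le_sub_one_of_pos (show (0 : ℝ) < 1 + gap / 2 by linarith)
      linarith
    have h3 : gap = (Real.log (Nat.choose 24 12) / 25 - Real.log 2) -
      (Real.log Λ / 25 - Real.log (2 * D)) := hg
    rw [add_div, add_div]
    linarith
  refine ⟨⟨D, hD, key⟩, ?_⟩
  by_contra hcon
  push Not at hcon
  have hmono : ∀ k : ℕ, Fs law (2 * (25 * Real.log q₀) / 5) (25 * Real.log q₀) 1 ≤
      Fs law (2 * (25 * Real.log q₀) / 5) (25 * Real.log q₀) (k + 1) := by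
    intro k
    induction k with
    | zero => exact le_rfl
    | succ k ih => exact ih.trans (hcon (k + 1) (by omega))
  have := hmono (D - 1)
  rw [show D - 1 + 1 = D by omega] at this
  exact absurd key (not_lt.mpr this)

end Pool.Agent.Q141.CP
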