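import Pool.Agent.Q141.CP.Def
import Pool.Agent.Q285.BregCol

/-!
# Charged polymers: the statements of the parts, with proofs

Throughout `m = 25`, `N = 2 D` is the number of directions, `θ = nb V x / N`.
-/

set_option autoImplicit false

namespace Pool.Agent.Q141.CP

open Finset MeasureTheory Filter Topology
open Pool.Agent.Q285.LogFact (G)

/-- `A j = (25 j)! ^ (1/j) / 25!`. -/
noncomputable def A (j : ℕ) : ℝ := Real.exp (25 * G (25 * j)) / ((25).factorial : ℝ)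

/-! ### Percolation (any finite graph; parallel edges and loops are allowed) -/

/-- PERC. PROOF. Put `b V = bdE en E V`, `I V = inE en E V`. Expand
`1 = (∑_{F ⊆ E} wt p E F) (∑_{H ⊆ E} wt q E H)` (`Finset.prod_add`, or `Finset.sum_pow_mul_...`).
For `V ∈ 𝒱` let `𝒜 V` be the set of the pairs `(F, H)` of subsets of `E` with `F`, `H` disjoint from
`b V` and `Conn en V ((F ∪ H) ∩ I V)`. (1) The sum of `wt p E F * wt q E H` over `𝒜 V` is
`((1-p)(1-q)) ^ |b V| * conn2 en E V p q`: `E` is the disjoint union of `I V`, `b V` and the rest `R`;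
`F = F₁ ∪ F₃` with `F₁ ⊆ I V`, `F₃ ⊆ R` and `wt p E F = wt p (I V) F₁ * (1-p)^|b V| * wt p R F₃`, and
`∑_{F₃ ⊆ R} wt p R F₃ = 1`. (2) The sets `𝒜 V` are disjoint for different `V`: for `(F, H) ∈ 𝒜 V` the set
`V` is the set of the points which can be reached from `o` by edges of `F ∪ H`: all points of `V` can be
reached, and no edge of `F ∪ H` leaves `V` because `F ∪ H ⊆ E` is disjoint from `b V`. All weights are
nonnegative. -/
def S_PERC : Prop := ∀ (α ε : Type) [DecidableEq α] [DecidableEq ε] (en : ε → α × α)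
  (E : Finset ε) (o : α) (p q : ℝ) (𝒱 : Finset (Finset α)), 0 ≤ p → p ≤ 1 → 0 ≤ q → q ≤ 1 →
  (∀ V ∈ 𝒱, o ∈ V) →
  ∑ V ∈ 𝒱, ((1 - p) * (1 - q)) ^ (bdE en E V).card * conn2 en E V p q ≤ 1

/-- SPR. PROOF. Let `I = inE en E V`, `M` the set of the `x ∈ V` with `lowE x = ∅`, `V' = V \ M`.
Call `F ⊆ I` good if `F ∩ lowE x ≠ ∅` for all `x ∈ V'`. (1) The sets `lowE x`, `x ∈ V`, are disjoint
subsets of `I` (an edge belongs to its higher end), so `∑_{F good} wt p I F = ∏_{x ∈ V'} (1 - (1-p) ^ |lowE x|)`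
(induction over a finset of disjoint blocks, or `wt` of a disjoint union; for one block `B`
the sum of `wt p B F` over the nonempty `F ⊆ B` is `1 - (1-p)^|B|`). (2) If `F` is good, every point of
`V` is joined by edges of `F` to a point of `M` (strong induction on the height: from `x ∈ V'` go down
along an edge of `F`; heights of the finite set `V` are bounded below). (3) Let `F` be good. There is
`T ⊆ I` with `|T| ≤ |M|` and `Conn en V (F ∪ T)`: choose a set `T ⊆ I` of least size such that `F ∪ T`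
connects `V` (`T = I` is possible) and show `|T| ≤ |M|`; or prove by induction on `j` that there is
`T ⊆ I` with `|T| ≤ j` and a set `M' ⊆ M` with `|M'| ≤ |M| - j` (or `|M'| ≤ 1`) such that every point of
`V` is joined by `F ∪ T` to a point of `M'`: if `F ∪ T` does not connect `V` and `|M'| ≥ 2`, then, as `I`
connects `V`, some edge of `I` joins two different classes of the equivalence relation `joined by F ∪ T`;
add it to `T` and delete from `M'` one of the (at most one needed per class, so delete the one of one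
of the two classes after making `M'` a set of representatives). (4) Hence
`conn2 ≥ ∑_{F good} wt p I F ∑_{H ⊇ T F} wt q I H = ∑_{F good} wt p I F * q ^ |T F| ≥ q ^ |M| ∑_{F good} wt p I F`
(`∑_{T ⊆ H ⊆ I} wt q I H = q ^ |T|`, `q ≤ 1`). If `V = ∅` both sides are `1`. -/
def S_SPR : Prop := ∀ (α ε : Type) [DecidableEq α] [DecidableEq ε] (en : ε → α × α)
  (E : Finset ε) (V : Finset α) (h : α → ℤ) (p q : ℝ), 0 ≤ p → p ≤ 1 → 0 ≤ q → q ≤ 1 →
  (∀ e ∈ E, h (en e).1 ≠ h (en e).2) → Conn en V (inE en E V) →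
  q ^ (V.filter fun x => lowE en E V h x = ∅).card *
    ∏ x ∈ V.filter (fun x => lowE en E V h x ≠ ∅), (1 - (1 - p) ^ (lowE en E V h x).card) ≤
    conn2 en E V p q

/-! ### The lattice -/

/-- CHO. PROOF. For `x ∈ V` with `nb V x ≥ 2 D τ`: `rc V c x = ∑_i [x + stepv (i, !c i) ∈ V]` is, for
`c` uniform in `{±}^D`, a sum of `D` independent `0-1` variables with mean value `nb V x / 2` and
variance at most `D / 4`, so `∑_c (rc V c x - nb V x / 2)^2 ≤ 2^D D / 4` (expand: the variables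
`X_i - E X_i` are orthogonal). If `4 rc < nb` then `(rc - nb/2)^2 ≥ (nb/4)^2 ≥ (D τ / 2)^2`, so the number
of these `c` is at most `2^D / (D τ^2)`. Sum over `x ∈ V`, exchange the sums, take the best `c`. -/
def S_CHO : Prop := ∀ (D : ℕ) (V : Finset (Vtx D)) (τ : ℝ), 1 ≤ D → 0 < τ →
  ∃ c : Fin D → Bool,
    ((V.filter fun x => τ * (2 * D) ≤ nb V x ∧ 4 * rc V c x < nb V x).card : ℝ) ≤
      V.card / (D * τ ^ 2)

/-- LNK. PROOF. `E₀` = all edges `(x, i)` with `x ∈ V` or `x + e_i ∈ V`. The edges of `bdE` correspond to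
the pairs `(x, a)`, `x ∈ V`, `a` a direction, `x + stepv a ∉ V`. The lower neighbours of `x` for the
height `ht c` are the points `x + stepv (i, !c i)`; the edge is `(x - e_i, i)` if `c i = true` and `(x, i)`
if `c i = false`. `ht c (x + e_i) = ht c x ± 1`. -/
def S_LNK : Prop := ∀ (D : ℕ) (V : Finset (Vtx D)), ∃ E₀ : Finset (Vtx D × Fin D),
  ∀ E, E₀ ⊆ E →
    (bdE enZ E V).card + ∑ x ∈ V, nb V x = 2 * D * V.card ∧
    (∀ c, ∀ x ∈ V, (lowE enZ E V (ht c) x).card = rc V c x) ∧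
    (∀ c, ∀ e ∈ E, ht c (enZ e).1 ≠ ht c (enZ e).2) ∧
    (ConnZ V → Conn enZ V (inE enZ E V))

/-! ### Real analysis -/

/-- AN1. PROOF. `s(θ) = θ e^(1-θ)` is increasing on `(0,1]` (so `s ≤ 1`). `θ ≥ 9/10`: the left side is
`≤ 1` and `1 - e^(-5.4) ≥ 0.9954`. `7/20 ≤ θ ≤ 9/10`: left side `≤ s(0.9)^25 ≤ 0.876`, right side
`≥ 1.005 (1 - e^(-2.1)) ≥ 0.88`. `θ ≤ 7/20`: left side `= θ θ^24 e^(25(1-θ)) ≤ θ * 0.35^24 * e^25 ≤ θ`
(`0.35^24 e^25 < 0.83`) and `1 - e^(-6θ) ≥ 2 θ` by concavity (value `≥ 0.87` at `0.35`). (Numerical bounds of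
`Real.exp` from `Real.exp_one_gt_d9`, `Real.exp_one_lt_d9`, `Real.exp_bound'`.) -/
def S_AN1 : Prop := ∀ θ : ℝ, 0 < θ → θ ≤ 1 →
  (θ * Real.exp (1 - θ)) ^ 25 ≤ 1005 / 1000 * (1 - Real.exp (-(6 * θ)))

/-- AN2. `25^25 e^(-25) / 25! = 0.07952`, `C(24,12) / 2^25 = 0.08059`. PROOF. `e ≥ 2.7182818283`
(`Real.exp_one_gt_d9`), `norm_num`. -/
def S_AN2 : Prop := (25 : ℝ) ^ 25 * Real.exp (-25) / ((25).factorial : ℝ) * (1012 / 1000) <
  (Nat.choose 24 12 : ℝ) / 2 ^ 25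

/-- AN3. PROOF. (1) `log d! ≤ (d + 1/2) log d - d + 1` (Stirling; induction with
`(d + 1/2) log (1 + 1/d) ≥ 1`; or from Mathlib's Stirling sequence being decreasing). (2) `G` is nonneg and
monotone (`G (a+1) - G a = (log (a+1) - G a)/(a+1)`, `G a ≤ log a`), `G a ≥ log a - 1` (`a! ≥ (a/e)^a`), so
`G (a+1) - G a ≤ (log(1+1/a) + 1)/(a+1) ≤ 2/a`, iterate. (3) `l! G`-bound: `exp (l G d) ≤ d^l`
(`G d ≤ log d`) and `d^l / l! ≤ exp d` (`Real.pow_div_factorial_le_exp`). -/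
def S_AN3 : Prop :=
  (∀ d : ℕ, 1 ≤ d → G d ≤ Real.log d - 1 + (Real.log d / 2 + 1) / d) ∧
  (∀ d : ℕ, 0 ≤ G d) ∧ Monotone G ∧
  (∀ a E : ℕ, 1 ≤ a → G (a + E) ≤ G a + 2 * E / a) ∧
  (∀ l d : ℕ, Real.exp (l * G d) ≤ l.factorial * Real.exp d) ∧
  (∀ l d : ℕ, 1 ≤ d → Real.exp (l * G d) ≤ (d : ℝ) ^ l)

/-- `ρ` for degrees `≥ 2 M^3` in dimension `D = M^4`. -/
noncomputable def rho (M : ℕ) : ℝ :=
  Real.exp ((Real.log (50 * (M : ℝ) ^ 4) / 2 + 1) / (2 * (M : ℝ) ^ 3))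

/-- The constant `Λ` in dimension `D = M^4`. -/
noncomputable def Lam (M : ℕ) : ℝ :=
  (25 : ℝ) ^ 25 * Real.exp (-25) / ((25).factorial : ℝ) * (2 * (M : ℝ) ^ 4) ^ 25 *
    (1005 / 1000) * rho M * Real.exp (Real.log (4 * (M : ℝ) ^ 4) / (M : ℝ) ^ 2)

/-- DEX. PROOF. `rho M → 1`, `exp (log (4 M^4) / M^2) → 1`, `1.005 < 1.012` and `S_AN2`;
`(e/M)^25 * exp(log 25/2 + 1) * 4 M^4 → 0`; `Lam M → ∞`. All for large `M`. -/
def S_DEX : Prop := S_AN2 → ∃ M : ℕ, 3 ≤ M ∧ 1 ≤ Lam M ∧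
  Lam M < (2 * (M : ℝ) ^ 4) ^ 25 * ((Nat.choose 24 12 : ℝ) / 2 ^ 25) ∧
  (Real.exp 1 / M) ^ 25 * Real.exp (Real.log 25 / 2 + 1) * (4 * (M : ℝ) ^ 4) ≤ 1

/-- The densities of the two percolations in dimension `D`. -/
noncomputable def pp (D : ℕ) : ℝ := 1 - Real.exp (-(24 / (2 * D)))

/-- The densities of the two percolations in dimension `D`. -/
noncomputable def qq (D : ℕ) : ℝ := 1 - Real.exp (-(1 / (2 * D)))

/-- KV. PROOF. Let `D = M^4`, `N = 2 D`, `τ = 1/M`, `E₀` from LNK, `c` from CHO, `B = |bdE|`,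
`θ_x = nb V x / N`; `nb V x ≥ 1` for `x ∈ V` (`V` is connected with at least two points) and `≤ N`.
(1) By AN3 `A j ≤ κ N^25 θ^25 ρ_j`, `κ = 25^25 e^(-25)/25!`, `ρ_j = exp((log(25 j)/2 + 1)/j)`, `j = nb V x`.
(2) `θ^25 = e^(-25(1-θ)) s(θ)^25`, `s(θ) = θ e^(1-θ)`, and `∏_x e^(-25 (1-θ_x)) = e^(-25 B/N) = ((1-pp)(1-qq))^B`
as `B = ∑_x (N - nb V x)` by LNK. (3) By SPR and LNK
`conn2 ≥ qq^(#{x : rc x = 0}) ∏_{rc x ≥ 1} (1 - e^(-24 rc x / N))`. For `x` with `4 rc x ≥ nb V x` (hence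
`rc x ≥ 1`) the factor is `≥ 1 - e^(-6 θ_x)`; for all others it is `≥ qq ≥ 1/(2N) = 1/(4 M^4)`
(`1 - e^(-t) ≥ t/2` for `0 ≤ t ≤ 1`). (4) So it suffices that `∏_x t_x ≤ (Lam M/(κ N^25))^k`, `k = |V|`, where
`t_x = s(θ_x)^25 ρ / (1 - e^(-6 θ_x))` if `θ_x ≥ τ`, `4 rc ≥ nb`, and `t_x = s(θ_x)^25 ρ * 4 M^4` otherwise
(for `θ_x < τ` use this bound also if `4 rc ≥ nb`). If `θ_x ≥ τ` then `nb V x ≥ 2 M^3` and
`ρ ≤ rho M`; so `t_x ≤ 1.005 rho M` (AN1) for the first kind and `t_x ≤ 4 M^4 rho M` for the others with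
`θ_x ≥ τ` (`s ≤ 1`), of which there are at most `k / (D τ^2) = k / M^2` by CHO. If `θ_x < τ` then
`s(θ_x)^25 ≤ (e/M)^25` and `ρ ≤ exp(log 25/2 + 1)` (decreasing in `j ≥ 1`), so `t_x ≤ 1` by the last hypothesis.
Product `≤ (1.005 rho M)^k (4 M^4)^(k/M^2)`. -/
def S_KV : Prop := S_SPR → S_CHO → S_LNK → S_AN1 → S_AN3 → ∀ M : ℕ, 3 ≤ M → 0 < Lam M →
  (Real.exp 1 / M) ^ 25 * Real.exp (Real.log 25 / 2 + 1) * (4 * (M : ℝ) ^ 4) ≤ 1 →
  ∀ V : Finset (Vtx (M ^ 4)), ConnZ V → 2 ≤ V.card →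
  ∃ E₀ : Finset (Vtx (M ^ 4) × Fin (M ^ 4)), ∀ E, E₀ ⊆ E →
    ∏ x ∈ V, (A (nb V x) / Lam M) ≤
      ((1 - pp (M ^ 4)) * (1 - qq (M ^ 4))) ^ (bdE enZ E V).card *
        conn2 enZ E V (pp (M ^ 4)) (qq (M ^ 4))

/-- The weighted number of the connected sets `V` with `k` points containing the origin is at most
one. -/
def KB (D : ℕ) (Λ : ℝ) : Prop := ∀ (k : ℕ) (𝒱 : Finset (Finset (Vtx D))),
  (∀ V ∈ 𝒱, 0 ∈ V ∧ V.card = k ∧ ConnZ V) → ∑ V ∈ 𝒱, ∏ x ∈ V, (A (nb V x) / Λ) ≤ 1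

/-- KK. PROOF. `M` from DEX, `D = M^4`, `Λ = Lam M`. `k = 0`: no `V`. `k = 1`: `𝒱 ⊆ {{0}}`, `nb = 0`,
`A 0 = 1/25! ≤ 1 ≤ Λ`. `k ≥ 2`: KV for all `V ∈ 𝒱` with `E` = the union of the sets `E₀ V`, then PERC
with `o = 0`, `p = pp`, `q = qq` (both in `[0,1]`). -/
def S_KK : Prop := S_PERC → S_KV → S_SPR → S_CHO → S_LNK → S_AN1 → S_AN2 → S_AN3 → S_DEX →
  ∃ (D : ℕ) (Λ : ℝ), 2 ≤ D ∧ 1 ≤ Λ ∧
    Λ < (2 * D : ℝ) ^ 25 * ((Nat.choose 24 12 : ℝ) / 2 ^ 25) ∧ KB D Λ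

/-! ### Walks with given local times -/

/-- The walks of `n` steps with the set `V` of visited points, the end `y` and the exit numbers `e`. -/
def cls {D : ℕ} (n : ℕ) (V : Finset (Vtx D)) (y : Vtx D) (e : Vtx D → ℕ) :
    Set (Fin n → Dir D) := {s | tr s = V ∧ pos s n = y ∧ ∀ x, ext s x = e x}

/-- The entering arrows available at `x`: the exits of the neighbours in `V`. -/
def dg {D : ℕ} (V : Finset (Vtx D)) (e : Vtx D → ℕ) (x : Vtx D) : ℕ :=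
  ∑ a : Dir D, if x + stepv a ∈ V then e (x + stepv a) else 0

/-- INJ. PROOF. By `Pool.Agent.Q285.BregCol.bregman`. We may assume that the class contains some `s₀`;
then `∑_{x ∈ V} e x = n`. Slots: pairs `(x, i)`, `x ∈ V`, `i < e x`; fix a bijection `σ : Fin n ≃ slots`. For
`s` in the class the map `τ_s : t ↦ (pos s t, #{t' < t : pos s t' = pos s t})` is a bijection from
`{0..n-1}` to the slots; put `f_s (slot) = pos s (τ_s⁻¹ slot + 1)` (the point reached after the `i`-th exit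
from `x`). `f_s` takes values in the neighbours of `x` in `V` and every `y ∈ V` has `loc s y = l y`
preimages. `s ↦ f_s` is injective: induction on `t`: if the positions agree up to time `t` the slots at
time `t` agree, so the next positions agree; the step is determined by two consecutive positions.
So `|class| ≤ |Fam A l|` with `κ = V` (as a subtype), `A (x, i)` = neighbours of `x` in `V`, and `deg A y`
`= ∑_{x ∈ V, x ~ y} e x = dg V e y`. -/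
def S_INJ : Prop := ∀ (D n : ℕ) (V : Finset (Vtx D)) (y : Vtx D) (e l : Vtx D → ℕ),
  (∀ s ∈ cls n V y e, ∀ x, loc s x = l x) →
  ((cls n V y e).ncard : ℝ) * ∏ x ∈ V, ((l x).factorial : ℝ) ≤
    Real.exp (∑ x ∈ V, (l x : ℝ) * G (dg V e x))

/-- The conditions for the weights. -/
def Wok (w : ℕ → ℝ) (η : ℝ) : Prop :=
  (∀ l, 0 ≤ w l) ∧ w 25 ≤ 1 ∧ ∀ l, 1 ≤ l → l ≠ 25 → w l ≤ η ^ l

/-- PRF. PROOF. `N = 2 D`, `C₁ = e^(28 N)`. If the class is empty, or `n = 0` (then `V = {0}`, at most one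
`s`, product `1`), clear. Let `n ≥ 1`; `V` is connected with `≥ 2` points, so `nb V x ≥ 1` for `x ∈ V`.
For `s` in the class `loc s x + [x = 0] = ext s x + [x = y]`, so `loc s = l` is the same for all `s`.
Let `t = ∑_{x ∈ V, e x ≠ 25} e x`. (1) Weight: `∏_{vis} w (loc) ≤ η^(∑_{x ∈ V, l x ≠ 25} l x)` (`x ∈ V \ vis`
has `l x = 0`), and `∑_{l x ≠ 25} l x + 52 ≥ t` as `e = l` off `{0, y}` and `e ≤ l + 1`: so the weight is
`≤ η^(-52) η^t`. (2) INJ: the number of walks is at most `∏_{x ∈ V} exp(l x G(dg x)) / (l x)!`.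
If `l x = 25`: `dg x ≤ 25 nb V x + E_x`, `E_x = ∑_{x' ~ x, x' ∈ V, e x' ≠ 25} e x'`, so by AN3
`25 G(dg x) ≤ 25 G(25 nb V x) + 2 E_x`, i.e. the factor is `≤ A (nb V x) e^(2 E_x)`. If `l x ≠ 25` the factor is
`≤ e^(dg x) ≤ e^(25 N + E_x)`. `∑_x E_x ≤ N t`, and the number of `x ∈ V` with `l x ≠ 25` is at most `t + 3`
(those with `e x ≠ 25` and `e x ≥ 1`: at most `t`; `e x = 0` only for `x = y`; and `x ∈ {0, y}`). So the number
of walks is `≤ e^(75 N) e^(28 N t) ∏_{l x = 25} A (nb V x)`. (3) `∏_{l x = 25} A ≤ ((25 N)^25 25!)^2 ∏_{e x = 25} A`: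
the two index sets differ at `0`, `y` only, `A j ≤ (25 N)^25` and `A j ≥ 1/25!`. Finally
`∏_{e x ≠ 25} (C₁ η)^(e x) = (C₁ η)^t`. -/
def S_PRF : Prop := S_INJ → S_AN3 → ∀ D : ℕ, 1 ≤ D → ∃ C₁ : ℝ, 0 < C₁ ∧ ∀ η : ℝ, 0 < η → η ≤ 1 →
  ∃ C₂ : ℝ, 0 < C₂ ∧ ∀ w, Wok w η → ∀ (n : ℕ) (V : Finset (Vtx D)) (y : Vtx D) (e : Vtx D → ℕ)
    (S : Finset (Fin n → Dir D)), (∀ s ∈ S, s ∈ cls n V y e) →
    ∑ s ∈ S, ∏ x ∈ vis s, w (loc s x) ≤
      C₂ * ∏ x ∈ V, (if e x = 25 then A (nb V x) else (C₁ * η) ^ e x)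

/-- SUM. PROOF. `C₁` from PRF, `b = 1/(25! Λ)`, so `a_x := A (nb V x)/Λ ≥ b`. Choose `η` with
`C₁ η ≤ 1/2`, `2 C₁ η / b ≤ ε`. The walks `s` are classified by `(tr s, pos s n, ext s)`. `V = tr s` is
connected, contains `0`, `k = |V| ≤ n + 1`; `y ∈ V`; `∑_{x ∈ V} e x = n`, `e x ≥ 1` for `x ∈ V`, `x ≠ y`, `e x = 0` off
`V`. As `∑ e = n` and `Λ ≥ 1`, `∏_{x ∈ V} (if e x = 25 then A else (C₁ η)^(e x)) ≤ Λ^(n/25) ∏_{x ∈ V} f_x(e x)`,
`f_x(e) = a_x` if `e = 25`, `(C₁ η)^e` otherwise. Sum over `e : V → {0..n}` (`Finset.prod_univ_sum`, with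
`e ≥ 1` off `y`): `≤ (a_y + 2) ∏_{x ≠ y} (a_x + 2 C₁ η) ≤ (1 + 2/b) (1 + ε)^k ∏_{x ∈ V} a_x`. Sum over `y ∈ V`
(`k ≤ n + 1` values), over `V` with `|V| = k` (`KB`), over `k ≤ n + 1`. -/
def S_SUM : Prop := S_PRF → S_INJ → S_AN3 → ∀ (D : ℕ) (Λ : ℝ), 1 ≤ D → 1 ≤ Λ → KB D Λ →
  ∀ ε : ℝ, 0 < ε → ∃ η : ℝ, 0 < η ∧ η ≤ 1 ∧ ∀ w, Wok w η → ∃ C : ℝ, 0 < C ∧ ∀ n : ℕ,
    ∑ s : Fin n → Dir D, ∏ x ∈ vis s, w (loc s x) ≤
      C * (n + 1) ^ 3 * Λ ^ ((n : ℝ) / 25) * (1 + ε) ^ n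

/-! ### The law and the weights -/

/-- LAW. PROOF. Under `law` every `w i` is `-1/5` or `5`; with `J` the number of the values `5` among `l`,
`Ω = (26 J - l)/5 = Y/5`, and with `δ = 2 β/5`: `δ Ω - β Ω² = (β/25) (2 Y - Y²) = (β/25) (1 - (Y-1)²)`,
`Y = 26 J - l` an integer. So the integrand is `≤ exp(β/25)` almost everywhere, and `≤ 1` if
`l % 26 ≠ 25` (then `Y ≠ 1`). For `l = 25`, `J = 1` gives `Y = 1`; its probability is
`25 (25/26)^24 (1/26) = (25/26)^25 ≥ 1/3`. (`Measure.pi` of `law`: integrate over the finite set of the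
sequences with values in `{-1/5, 5}`; or use `law = ∑ ...` and that a.e. `w i ∈ {-1/5, 5}`, and for the lower
bound restrict to the 25 points; the measure of the point `w` is `∏ law {w i}`, `Measure.pi_singleton`.)
`gs .. 0 = 1`. -/
def S_LAW : Prop := Adm law ∧ ∀ β : ℝ, 0 < β →
  gs law (2 * β / 5) β 0 = 1 ∧ (∀ l, 0 < gs law (2 * β / 5) β l) ∧
  Real.exp (β / 25) / 3 ≤ gs law (2 * β / 5) β 25 ∧
  (∀ l, gs law (2 * β / 5) β l ≤ Real.exp (β / 25)) ∧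
  (∀ l, l % 26 ≠ 25 → gs law (2 * β / 5) β l ≤ 1)

/-- WGT. PROOF. Take `q₀` with `q₀ ≥ 3` and `(q₀/3)^(1/50) ≥ 3/η`, `η ≤ 1`. If `l % 26 ≠ 25`:
`g l / (g 25)^(l/25) ≤ (q/3)^(-l/25) ≤ η^l`. If `l % 26 = 25`, `l ≠ 25`, then `l ≥ 51` and
`g l / (g 25)^(l/25) ≤ q (q/3)^(-l/25) = 3 (q/3)^(1 - l/25) ≤ 3 (q/3)^(-l/50) ≤ (3 (q/3)^(-1/50))^l ≤ η^l`. -/
def S_WGT : Prop := ∀ η : ℝ, 0 < η → η ≤ 1 → ∃ q₀ : ℝ, 3 ≤ q₀ ∧ ∀ q : ℝ, q₀ ≤ q → ∀ g : ℕ → ℝ,
  (∀ l, 0 < g l) → q / 3 ≤ g 25 → (∀ l, g l ≤ q) → (∀ l, l % 26 ≠ 25 → g l ≤ 1) →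
  Wok (fun l => g l / (g 25) ^ ((l : ℝ) / 25)) η

/-! ### The free energies -/

/-- UPG. PROOF. `∑_{x ∈ vis s} loc s x = n`, so `∏_x g(loc) = (g 25)^(n/25) ∏_x w(loc)` and
`Z D g n ≤ (2D)^(-n) (g 25)^(n/25) C (n+1)^3 Λ^(n/25) (1+ε)^n`; take logarithms (`Z > 0`), divide by `n`, let
`n → ∞` (`limsup ≤` of a convergent sequence). -/
def S_UPG : Prop := ∀ (D : ℕ) (g : ℕ → ℝ) (Λ ε C : ℝ), 1 ≤ D → (∀ l, 0 < g l) → 1 ≤ Λ → 0 < ε → 0 < C →
  (∀ n : ℕ, ∑ s : Fin n → Dir D, ∏ x ∈ vis s, (g (loc s x) / (g 25) ^ ((loc s x : ℝ) / 25)) ≤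
    C * (n + 1) ^ 3 * Λ ^ ((n : ℝ) / 25) * (1 + ε) ^ n) →
  limsup (fun n : ℕ => ((Real.log (Z D g n) / n : ℝ) : EReal)) atTop ≤
    (((Real.log (g 25) + Real.log Λ) / 25 - Real.log (2 * D) + Real.log (1 + ε) : ℝ) : EReal)

/-- D1. Walks on `ℤ` from `0` to `k + 1` with local times `12, 25, ..., 25, 13`. PROOF. Induction on `k`.
`k = 0`: the walk `0, 1, 0, 1, ..., 0, 1` (25 steps). Step: a walk of `P k` is at `k + 1` at 13 times, the last
one being its end. For natural numbers `a_0 + ... + a_12 = 12` (there are `C(24, 12)` choices) insert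
after the `i`-th visit of `k + 1` (`i = 0..12`) `a_i` times the two steps `+, -`, and at the end a step `+`.
The new walk has `25 (k + 1) + 24 + 1 = 25 (k + 2)` steps, `k + 1` has `13 + 12 = 25` visits, `k + 2` has
`12 + 1 = 13`, the others are unchanged. Injective: deleting the visits to `k + 2` gives back the old
walk, and the numbers `a_i` can be read off. (Suggestion: work with lists of Booleans and recursive
insertion `ins top pos w as`, and transfer to `Fin n → Dir 1` at the end.) -/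
def S_D1 : Prop := ∀ k : ℕ, ∃ P : Finset (Fin (25 * (k + 1)) → Dir 1),
  (Nat.choose 24 12) ^ k ≤ P.card ∧ ∀ s ∈ P, loc s (fun _ => 0) = 12 ∧
    (∀ i : ℕ, 1 ≤ i → i ≤ k → loc s (fun _ => (i : ℤ)) = 25) ∧
    loc s (fun _ => (k : ℤ) + 1) = 13

/-- LOW. PROOF. For `n = 25 (k + 1)` the local times of `s ∈ P` at `0, 1, .., k + 1` add up to
`12 + 25 k + 13 = n`, so there are no others and `∏ g(loc) = g 12 g 13 (g 25)^k`. So
`Z 1 g n ≥ 2^(-n) C(24,12)^k g 12 g 13 (g 25)^k` and `(1/n) log Z` along this subsequence has the lower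
bound tending to `(log (g 25) + log C(24,12))/25 - log 2`; hence the `limsup` is at least this. -/
def S_LOW : Prop := S_D1 → ∀ g : ℕ → ℝ, (∀ l, 0 < g l) →
  (((Real.log (g 25) + Real.log (Nat.choose 24 12)) / 25 - Real.log 2 : ℝ) : EReal) ≤
    limsup (fun n : ℕ => ((Real.log (Z 1 g n) / n : ℝ) : EReal)) atTop

end Pool.Agent.Q141.CP
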